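import Pool.Agent.X182.SF.Main
import Pool.Agent.X182.SF.Split
import Pool.Agent.X182.SF.CH

/-!
# A semifilter which is not strongly homogeneous

Under the continuum hypothesis, and more generally if the reaping number is the continuum, there is
a semifilter which is not homeomorphic to any proper clopen subspace of itself.  So ZFC does not
prove that every semifilter is strongly homogeneous.
-/

set_option autoImplicit false

namespace Pool.Agent.Results.MP_7a28e0_gt.NotStronglyHomogeneous

open Set Cardinal Topology Pool.Agent.H3R3.Rigid Pool.Agent.X182.SF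

/-- A semifilter on `ℕ`, as a family of characteristic functions `x : ℕ → Bool` of subsets of `ℕ`:
a nonempty family of infinite sets which with `x` contains every `y` such that `x ∖ y` is
finite. -/
def IsSemifilter (S : Set (ℕ → Bool)) : Prop :=
  S.Nonempty ∧ (∀ x ∈ S, {n | x n = true}.Infinite) ∧
    ∀ x ∈ S, ∀ y : ℕ → Bool, {n | x n = true ∧ y n = false}.Finite → y ∈ S

/-- A space `Y` is strongly homogeneous if every nonempty clopen subset of `Y`, with the subspace
topology, is homeomorphic to `Y`. -/
def StronglyHomogeneous (Y : Type) [TopologicalSpace Y] : Prop :=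
  ∀ U : Set Y, IsClopen U → U.Nonempty → Nonempty (U ≃ₜ Y)

/-- `𝔯 = 𝔠`: for any family of fewer than continuum many infinite subsets of `ℕ` there is a single
set which splits all of them. -/
def ReapingNumberIsContinuum : Prop :=
  ∀ R : Set (Set ℕ), #R < 𝔠 → (∀ r ∈ R, r.Infinite) →
    ∃ x : Set ℕ, ∀ r ∈ R, (r ∩ x).Infinite ∧ (r \ x).Infinite

lemma hsplit (h : (ℵ₁ : Cardinal.{0}) = 𝔠 ∨ ReapingNumberIsContinuum) : HSplit := by
  classical
  refine hsplit_of_reap fun R hR hinf => ?_
  rcases h with h | h
  · refine exists_spl_of_countable ?_ hinf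
    rw [← le_aleph0_iff_set_countable]
    rw [← h, ← succ_aleph0] at hR
    exact Order.lt_succ_iff.1 hR
  · obtain ⟨x, hx⟩ := h ((fun r : C => {n | r n = true}) '' R) (mk_image_le.trans_lt hR) (by
      rintro _ ⟨r, hr, rfl⟩
      exact hinf r hr)
    refine ⟨fun n => decide (n ∈ x), fun r hr => ?_⟩
    obtain ⟨h1, h2⟩ := hx _ ⟨r, hr, rfl⟩
    refine ⟨?_, ?_⟩
    · refine h1.mono ?_
      rintro n ⟨h3, h4⟩
      exact ⟨h3, decide_eq_true h4⟩
    · refine h2.mono ?_
      rintro n ⟨h3, h4⟩
      exact ⟨h3, decide_eq_false h4⟩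

/-- **Main theorem.** Assume the continuum hypothesis, or more generally that the reaping number is
the continuum. Then there is a semifilter `S` such that no proper clopen subspace of `S` is
homeomorphic to `S`. In particular `S` is not strongly homogeneous. -/
theorem result (h : (ℵ₁ : Cardinal.{0}) = 𝔠 ∨ ReapingNumberIsContinuum) :
    ∃ S : Set (ℕ → Bool), IsSemifilter S ∧
      (∀ U : Set S, IsClopen U → Nonempty (U ≃ₜ S) → U = Set.univ) ∧
      ¬ StronglyHomogeneous S := by
  classical
  obtain ⟨S, h1, h2, h3, h4⟩ := exists_semifilter (hsplit h)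
  have hne : S.Nonempty := by
    obtain ⟨x, -, hx⟩ := h3 Set.univ isClosed_univ (by simp)
    exact ⟨x, hx⟩
  have hmain : ∀ U : Set S, IsClopen U → Nonempty (U ≃ₜ S) → U = Set.univ := by
    rintro U hU ⟨g⟩
    exact eq_univ_of_homeo h3 h4 hU g
  refine ⟨S, ⟨hne, h2, fun x hx y hxy => h1 x y hxy hx⟩, hmain, fun hs => ?_⟩
  obtain ⟨x, hx⟩ := hne
  -- change the first coordinate
  have hupd : ∀ b : Bool, Function.update x 0 b ∈ S := by
    intro b
    refine h1 x _ (Set.Finite.subset (Set.finite_singleton 0) ?_) hx
    rintro n ⟨hn1, hn2⟩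
    by_contra hn
    have hn' : n ≠ 0 := hn
    rw [Function.update_of_ne hn'] at hn2
    rw [hn1] at hn2
    exact absurd hn2 (by simp)
  set U : Set S := {y | y.1 0 = true} with hU
  have hUc : IsClopen U := by
    have hc : Continuous fun y : S => y.1 0 := (continuous_apply 0).comp continuous_subtype_val
    exact (isClopen_discrete ({true} : Set Bool)).preimage hc
  have hUne : U.Nonempty := ⟨⟨_, hupd true⟩, by simp [hU]⟩
  have hUuniv := hmain U hUc (hs U hUc hUne)
  have h5 : (⟨_, hupd false⟩ : S) ∈ U := by
    rw [hUuniv]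
    exact Set.mem_univ _
  simp [hU] at h5

end Pool.Agent.Results.MP_7a28e0_gt.NotStronglyHomogeneous
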